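import Mathlib

/-! Forests of small diameter from a depth function, and orientations of forests. -/

set_option autoImplicit false

namespace Pool.Agent.Q104.BD

variable {V : Type}

/-- A graph with a function `s` which is injective along edges and for which every vertex has at
most one neighbour of smaller value is acyclic. -/
theorem acyclic_of_depth (H : SimpleGraph V) (s : V → ℕ)
    (h1 : ∀ u w, H.Adj u w → s u ≠ s w)
    (h2 : ∀ v u w, H.Adj v u → H.Adj v w → s u < s v → s w < s v → u = w) : H.IsAcyclic := by
  classical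
  intro x c hc
  -- a vertex of the cycle with maximal value
  obtain ⟨y, hy, hmax⟩ := c.support.toFinset.exists_max_image s
    ⟨x, by simp⟩
  have hy' : y ∈ c.support := by simpa using hy
  have hc' := hc.rotate hy'
  set c' := c.rotate y hy' with hcdef
  have hsub : ∀ z ∈ c'.support, z ∈ c.support := by
    intro z hz
    rw [hcdef] at hz
    simpa using hz
  have hn : ¬ c'.Nil := hc'.not_nil
  have a1 : H.Adj y c'.snd := SimpleGraph.Walk.adj_snd hn
  have a2 : H.Adj y c'.penultimate := (SimpleGraph.Walk.adj_penultimate hn).symm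
  have m1 : s c'.snd ≤ s y := hmax _ (by
    have := hsub _ (SimpleGraph.Walk.getVert_mem_support c' 1)
    simpa using this)
  have m2 : s c'.penultimate ≤ s y := hmax _ (by
    have := hsub _ (SimpleGraph.Walk.getVert_mem_support c' (c'.length - 1))
    simpa using this)
  exact hc'.snd_ne_penultimate (h2 y _ _ a1 a2 (lt_of_le_of_ne m1 (h1 _ _ a1).symm)
    (lt_of_le_of_ne m2 (h1 _ _ a2).symm))

/-- If moreover all values are at most two, then every component has diameter at most four. -/
theorem dist_of_depth (H : SimpleGraph V) (s : V → ℕ) (h0 : ∀ v, s v ≤ 2)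
    (h1 : ∀ u w, H.Adj u w → s u ≠ s w)
    (h2 : ∀ v u w, H.Adj v u → H.Adj v w → s u < s v → s w < s v → u = w)
    (u w : V) (hr : H.Reachable u w) : H.dist u w ≤ 4 := by
  classical
  -- the lower neighbour
  let f : V → V := fun v => if h : ∃ w, H.Adj v w ∧ s w < s v then h.choose else v
  have f1 : ∀ v w, H.Adj v w → s w < s v → f v = w := by
    intro v w ha hs
    have h : ∃ w, H.Adj v w ∧ s w < s v := ⟨w, ha, hs⟩
    have hf : f v = h.choose := dif_pos h
    rw [hf]
    exact h2 v _ _ h.choose_spec.1 ha h.choose_spec.2 hs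
  have f2 : ∀ v, (f v = v ∧ ¬ ∃ w, H.Adj v w ∧ s w < s v) ∨ (H.Adj v (f v) ∧ s (f v) < s v) := by
    intro v
    by_cases h : ∃ w, H.Adj v w ∧ s w < s v
    · right
      have hf : f v = h.choose := dif_pos h
      rw [hf]
      exact h.choose_spec
    · left
      exact ⟨dif_neg h, h⟩
  have f3 : ∀ v, s v ≤ 1 → f (f v) = f v := by
    intro v hv
    rcases f2 v with ⟨h, -⟩ | ⟨ha, hs⟩
    · rw [h, h]
    · rcases f2 (f v) with ⟨h, -⟩ | ⟨-, hs'⟩
      · exact h
      · omega
  have f4 : ∀ v w, H.Adj v w → f (f v) = f (f w) := by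
    have key : ∀ v w, H.Adj v w → s w < s v → f (f v) = f (f w) := by
      intro v w ha hs
      rw [f1 v w ha hs, f3 w (by have := h0 v; omega)]
    intro v w ha
    rcases lt_or_gt_of_ne (h1 v w ha) with h | h
    · exact (key w v ha.symm h).symm
    · exact key v w ha h
  have f5 : ∀ v w, H.Reachable v w → f (f v) = f (f w) := by
    rintro v w ⟨p⟩
    induction p with
    | nil => rfl
    | cons ha _ ih => exact (f4 _ _ ha).trans ih
  have step : ∀ v, ∃ p : H.Walk v (f v), p.length ≤ 1 := by
    intro v
    rcases f2 v with ⟨h, -⟩ | ⟨ha, -⟩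
    · rw [h]
      exact ⟨SimpleGraph.Walk.nil, by simp⟩
    · exact ⟨SimpleGraph.Walk.cons ha SimpleGraph.Walk.nil, by simp⟩
  have two : ∀ v, ∃ p : H.Walk v (f (f v)), p.length ≤ 2 := by
    intro v
    obtain ⟨p, hp⟩ := step v
    obtain ⟨q, hq⟩ := step (f v)
    exact ⟨p.append q, by rw [SimpleGraph.Walk.length_append]; omega⟩
  obtain ⟨p, hp⟩ := two u
  have hw := two w
  rw [← f5 u w hr] at hw
  obtain ⟨q, hq⟩ := hw
  refine (SimpleGraph.dist_le (p.append q.reverse)).trans ?_
  rw [SimpleGraph.Walk.length_append, SimpleGraph.Walk.length_reverse]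
  omega

/-- A forest has an orientation in which every vertex has at most one out-neighbour. -/
theorem orient (F : SimpleGraph V) (hF : F.IsAcyclic) :
    ∃ r : V → V → Prop, (∀ v w, r v w → F.Adj v w) ∧ (∀ v w w', r v w → r v w' → w = w') ∧
      ∀ v w, F.Adj v w → r v w ∨ r w v := by
  classical
  let root : V → V := fun v => (F.connectedComponentMk v).out
  have hroot : ∀ v, F.Reachable (root v) v := fun v =>
    SimpleGraph.ConnectedComponent.exact (F.connectedComponentMk v).out_eq
  have hadj : ∀ v w, F.Adj v w → root v = root w := by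
    intro v w h
    have : F.connectedComponentMk v = F.connectedComponentMk w :=
      SimpleGraph.ConnectedComponent.sound h.reachable
    simp only [root, this]
  refine ⟨fun v w => F.Adj v w ∧ F.dist (root v) w < F.dist (root v) v, fun v w h => h.1, ?_, ?_⟩
  · rintro v w w' ⟨h1, h2⟩ ⟨h3, h4⟩
    -- both are the penultimate vertex of the path from the root to `v`
    obtain ⟨p, hp, hpl⟩ := (hroot v).exists_path_of_dist
    have key : ∀ z, F.Adj v z → F.dist (root v) z < F.dist (root v) v → z = p.penultimate := by
      intro z hz hlt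
      apply hF.eq_penultimate_of_adj_end hp hz
      obtain ⟨q, hq, hql⟩ := ((hroot v).trans hz.reachable).exists_path_of_dist
      by_contra hcon
      have h5 : v ∈ q.support := hF.mem_support_of_ne_mem_support_of_adj_of_isPath hq hp hz.symm hcon
      have h6 := hF.path_concat hp hq hz h5
      rw [h6, SimpleGraph.Walk.length_concat] at hql
      omega
    rw [key w h1 h2, key w' h3 h4]
  · intro v w h
    have hr : F.Reachable (root v) v := hroot v
    rcases hF.dist_eq_dist_add_one_of_adj_of_reachable (root v) h hr with h1 | h1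
    · left
      exact ⟨h, by omega⟩
    · right
      refine ⟨h.symm, ?_⟩
      rw [← hadj v w h]
      omega

end Pool.Agent.Q104.BD
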