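import Mathlib

/-! The greedy construction of the labels. -/

set_option autoImplicit false

namespace Pool.Agent.Q104.BD

open Finset

/-- Hitting sets: if every set of a family contains a third of all points, then `n` points can be
chosen which miss at most the fraction `(2/3)^n` of the sets. -/
theorem hitting {α β : Type} [DecidableEq α] [DecidableEq β] [Fintype β] [Nonempty β]
    (C : Finset α) (A : α → Finset β) (hA : ∀ u ∈ C, Fintype.card β ≤ 3 * (A u).card) (n : ℕ) :
    ∃ H : Finset β, H.card ≤ n ∧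
      (C.filter (fun u => Disjoint H (A u))).card * 3 ^ n ≤ C.card * 2 ^ n := by
  induction n with
  | zero => exact ⟨∅, by simp, by simp⟩
  | succ n ih =>
    obtain ⟨H, hH, hR⟩ := ih
    set R := C.filter (fun u => Disjoint H (A u)) with hRdef
    -- a point in a third of the remaining sets
    have hsum : ∑ c : β, (R.filter (fun u => c ∈ A u)).card = ∑ u ∈ R, (A u).card := by
      simp only [Finset.card_filter]
      rw [Finset.sum_comm]
      refine Finset.sum_congr rfl fun u _ => ?_
      rw [← Finset.sum_filter, ← Finset.card_eq_sum_ones]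
      congr 1
      ext c
      simp
    have hlow : R.card * Fintype.card β ≤ 3 * ∑ u ∈ R, (A u).card := by
      rw [Finset.mul_sum, ← smul_eq_mul, ← Finset.sum_const]
      exact Finset.sum_le_sum fun u hu => hA u (Finset.mem_filter.1 hu).1
    have hex : ∃ c : β, R.card ≤ 3 * (R.filter (fun u => c ∈ A u)).card := by
      by_contra hcon
      push Not at hcon
      have h1 : ∑ c : β, 3 * (R.filter (fun u => c ∈ A u)).card < ∑ _c : β, R.card :=
        Finset.sum_lt_sum_of_nonempty Finset.univ_nonempty fun c _ => hcon c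
      rw [← Finset.mul_sum, hsum, Finset.sum_const, smul_eq_mul, Finset.card_univ] at h1
      rw [mul_comm] at hlow
      omega
    obtain ⟨c, hc⟩ := hex
    refine ⟨insert c H, (Finset.card_insert_le _ _).trans (by omega), ?_⟩
    have hsub : (C.filter (fun u => Disjoint (insert c H) (A u))) =
        R.filter (fun u => ¬ c ∈ A u) := by
      ext u
      simp only [hRdef, Finset.mem_filter, Finset.disjoint_insert_left]
      tauto
    rw [hsub]
    have hadd := Finset.card_filter_add_card_filter_not (s := R) (fun u => c ∈ A u)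
    have h3 : (R.filter (fun u => ¬ c ∈ A u)).card * 3 ≤ R.card * 2 := by omega
    calc (R.filter (fun u => ¬ c ∈ A u)).card * 3 ^ (n + 1)
        = ((R.filter (fun u => ¬ c ∈ A u)).card * 3) * 3 ^ n := by ring
      _ ≤ (R.card * 2) * 3 ^ n := Nat.mul_le_mul_right _ h3
      _ = (R.card * 3 ^ n) * 2 := by ring
      _ ≤ (C.card * 2 ^ n) * 2 := Nat.mul_le_mul_right _ hR
      _ = C.card * 2 ^ (n + 1) := by ring

/-- Distinct representatives by the greedy method. -/
theorem greedy {α β : Type} [DecidableEq α] [DecidableEq β] [Nonempty β] (L : α → Finset β)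
    (B : Finset β) (P : Finset α) (h : ∀ w ∈ P, P.card + B.card ≤ (L w).card) :
    ∃ g : α → β, (∀ w ∈ P, g w ∈ L w ∧ g w ∉ B) ∧
      ∀ w ∈ P, ∀ w' ∈ P, g w = g w' → w = w' := by
  induction P using Finset.induction_on with
  | empty => exact ⟨fun _ => Classical.arbitrary β, by simp, by simp⟩
  | insert w0 P hw0 ih =>
    rw [Finset.card_insert_of_notMem hw0] at h
    obtain ⟨g, h1, h2⟩ := ih fun w hw => by
      have := h w (Finset.mem_insert_of_mem hw)
      omega
    have hpos : ((L w0) \ (B ∪ P.image g)).Nonempty := by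
      rw [← Finset.card_pos]
      have e1 := Finset.le_card_sdiff (B ∪ P.image g) (L w0)
      have e2 := Finset.card_union_le B (P.image g)
      have e3 : (P.image g).card ≤ P.card := Finset.card_image_le
      have e4 := h w0 (Finset.mem_insert_self _ _)
      omega
    obtain ⟨c, hc⟩ := hpos
    rw [Finset.mem_sdiff, Finset.mem_union, not_or, Finset.mem_image] at hc
    obtain ⟨hc1, hc2, hc3⟩ := hc
    push Not at hc3
    have hne : ∀ w ∈ P, w ≠ w0 := fun w hw he => hw0 (he ▸ hw)
    refine ⟨Function.update g w0 c, ?_, ?_⟩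
    · intro w hw
      rcases Finset.mem_insert.1 hw with rfl | hw
      · simp [hc1, hc2]
      · rw [Function.update_of_ne (hne w hw)]
        exact h1 w hw
    · intro w hw w' hw' he
      rcases Finset.mem_insert.1 hw with e1 | h3 <;> rcases Finset.mem_insert.1 hw' with e2 | h4
      · rw [e1, e2]
      · rw [e1, Function.update_self, Function.update_of_ne (hne w' h4)] at he
        exact absurd he.symm (hc3 w' h4)
      · rw [e2, Function.update_self, Function.update_of_ne (hne w h3)] at he
        exact absurd he (hc3 w h3)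
      · rw [Function.update_of_ne (hne w h3), Function.update_of_ne (hne w' h4)] at he
        exact h2 w h3 w' h4 he

/-- The invariant: labels `s` and colours `a` on the vertices of `S`. -/
structure Good {V : Type} [DecidableEq V] (k h : ℕ) (par : V → Finset V) (S : Finset V)
    (s : V → Fin (2 * k - 1) → ℕ) (a : V → V → Fin (2 * k - 1)) : Prop where
  le2 : ∀ v ∈ S, ∀ c, s v c ≤ 2
  zeros : ∀ v ∈ S, (univ.filter (fun c => s v c = 0)).card = 2 * h + 1
  twos : ∀ v ∈ S, (univ.filter (fun c => s v c = 2)).card + (h + 1) ≤ k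
  lt : ∀ v ∈ S, ∀ w ∈ S, w ∈ par v → s w (a v w) < s v (a v w)
  inj : ∀ v ∈ S, ∀ w ∈ S, ∀ w' ∈ S, w ∈ par v → w' ∈ par v → a v w = a v w' → w = w'

/-- Insertion of one vertex. -/
theorem step {V : Type} [DecidableEq V] (k h : ℕ) (par : V → Finset V)
    (hk : ∀ v, (par v).card ≤ k) (hirr : ∀ v, v ∉ par v)
    (hA : 2 * h + 2 ≤ k) (hB : 2 * k - 1 ≤ 3 * (k - 1 - 2 * h)) (hC : k * 2 ^ h < 3 ^ h)
    (S : Finset V) (v : V) (hv : v ∉ S) (hdeg : (S.filter (fun u => v ∈ par u)).card ≤ k)
    (s : V → Fin (2 * k - 1) → ℕ) (a : V → V → Fin (2 * k - 1)) (hG : Good k h par S s a) :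
    ∃ s' a', Good k h par (insert v S) s' a' := by
  classical
  have : Nonempty (Fin (2 * k - 1)) := ⟨⟨0, by omega⟩⟩
  -- free colours of the earlier children
  set C := S.filter (fun u => v ∈ par u) with hCdef
  let A : V → Finset (Fin (2 * k - 1)) := fun u =>
    (univ.filter (fun c => s u c ≠ 0)) \ ((S.filter (fun w => w ∈ par u)).image (a u))
  have hAcard : ∀ u ∈ C, k - 1 - 2 * h ≤ (A u).card := by
    intro u hu
    rw [hCdef, Finset.mem_filter] at hu
    have e1 := Finset.le_card_sdiff ((S.filter (fun w => w ∈ par u)).image (a u))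
      (univ.filter (fun c => s u c ≠ 0))
    have e2 : ((S.filter (fun w => w ∈ par u)).image (a u)).card ≤
        (S.filter (fun w => w ∈ par u)).card := Finset.card_image_le
    have e3 : (S.filter (fun w => w ∈ par u)).card + 1 ≤ (par u).card := by
      rw [← Finset.card_insert_of_notMem (a := v) (s := S.filter (fun w => w ∈ par u))
        (fun hc => hv (Finset.mem_filter.1 hc).1)]
      apply Finset.card_le_card
      intro w hw
      rcases Finset.mem_insert.1 hw with rfl | hw
      · exact hu.2
      · exact (Finset.mem_filter.1 hw).2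
    have e4 := Finset.card_filter_add_card_filter_not (s := (univ : Finset (Fin (2 * k - 1))))
      (fun c => s u c = 0)
    rw [hG.zeros u hu.1, Finset.card_univ, Fintype.card_fin] at e4
    have e5 := hk u
    change k - 1 - 2 * h ≤ ((univ.filter (fun c => s u c ≠ 0)) \
      ((S.filter (fun w => w ∈ par u)).image (a u))).card
    simp only [ne_eq] at e1 ⊢
    omega
  obtain ⟨H, hH, hHit⟩ := hitting C A (fun u hu => by
    rw [Fintype.card_fin]
    exact hB.trans (Nat.mul_le_mul_left _ (hAcard u hu))) h
  have hHit0 : (C.filter (fun u => Disjoint H (A u))).card = 0 := by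
    by_contra hne
    have h1 : 1 ≤ (C.filter (fun u => Disjoint H (A u))).card := Nat.one_le_iff_ne_zero.2 hne
    have h2 : 3 ^ h ≤ (C.filter (fun u => Disjoint H (A u))).card * 3 ^ h :=
      Nat.le_mul_of_pos_left _ h1
    have h3 : C.card * 2 ^ h ≤ k * 2 ^ h := Nat.mul_le_mul_right _ hdeg
    omega
  have hd : ∀ u, ∃ d : Fin (2 * k - 1), u ∈ C → d ∈ H ∧ d ∈ A u := by
    intro u
    by_cases hu : u ∈ C
    · have h1 : ¬ Disjoint H (A u) := by
        intro hdis
        have : u ∈ C.filter (fun u => Disjoint H (A u)) := Finset.mem_filter.2 ⟨hu, hdis⟩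
        rw [Finset.card_eq_zero.1 hHit0] at this
        simp at this
      obtain ⟨d, hd1, hd2⟩ := Finset.not_disjoint_iff.1 h1
      exact ⟨d, fun _ => ⟨hd1, hd2⟩⟩
    · exact ⟨Classical.arbitrary _, fun h => absurd h hu⟩
  choose d hd using hd
  -- colours for the earlier parents
  set P := S.filter (fun w => w ∈ par v) with hPdef
  have hPk : P.card ≤ k := (Finset.card_le_card (fun w hw => (Finset.mem_filter.1 hw).2)).trans
    (hk v)
  obtain ⟨P0, hP0, hP0c⟩ := Finset.exists_subset_card_eq (s := P) (n := min P.card (h + 1))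
    (min_le_left _ _)
  obtain ⟨g0, hg0, hg0i⟩ := greedy (fun w => univ.filter (fun c => s w c = 0)) H P0 (by
    intro w hw
    rw [hG.zeros w (Finset.mem_filter.1 (hP0 hw)).1, hP0c]
    have := min_le_right P.card (h + 1)
    omega)
  obtain ⟨g1, hg1, hg1i⟩ := greedy (fun w => univ.filter (fun c => s w c ≤ 1)) (H ∪ P0.image g0)
    (P \ P0) (by
    intro w hw
    have hwS : w ∈ S := (Finset.mem_filter.1 (Finset.mem_sdiff.1 hw).1).1
    have e1 := Finset.card_union_le H (P0.image g0)
    have e2 : (P0.image g0).card ≤ P0.card := Finset.card_image_le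
    have e3 : (P \ P0).card = P.card - P0.card := Finset.card_sdiff_of_subset hP0
    have e3' : P0.card ≤ P.card := Finset.card_le_card hP0
    have e4 := Finset.card_filter_add_card_filter_not (s := (univ : Finset (Fin (2 * k - 1))))
      (fun c => s w c = 2)
    rw [Finset.card_univ, Fintype.card_fin] at e4
    have e5 := hG.twos w hwS
    have e6 : (univ.filter (fun c => ¬ s w c = 2)).card ≤
        (univ.filter (fun c => s w c ≤ 1)).card := by
      apply Finset.card_le_card
      intro c hc
      have h1 := (Finset.mem_filter.1 hc).2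
      have h2 := hG.le2 w hwS c
      exact Finset.mem_filter.2 ⟨Finset.mem_univ _, by omega⟩
    change (P \ P0).card + (H ∪ P0.image g0).card ≤ (univ.filter (fun c => s w c ≤ 1)).card
    omega)
  let g : V → Fin (2 * k - 1) := fun w => if w ∈ P0 then g0 w else g1 w
  have hg0' : ∀ w ∈ P0, g w = g0 w := fun w hw => if_pos hw
  have hg1' : ∀ w, w ∉ P0 → g w = g1 w := fun w hw => if_neg hw
  have hgH : ∀ w ∈ P, g w ∉ H := by
    intro w hw
    by_cases hw0 : w ∈ P0
    · rw [hg0' w hw0]
      exact (hg0 w hw0).2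
    · rw [hg1' w hw0]
      have := (hg1 w (Finset.mem_sdiff.2 ⟨hw, hw0⟩)).2
      rw [Finset.mem_union, not_or] at this
      exact this.1
  have hgs : ∀ w ∈ P, s w (g w) ≤ 1 ∧ (w ∈ P0 → s w (g w) = 0) := by
    intro w hw
    by_cases hw0 : w ∈ P0
    · rw [hg0' w hw0]
      have := (Finset.mem_filter.1 (hg0 w hw0).1).2
      exact ⟨by omega, fun _ => this⟩
    · rw [hg1' w hw0]
      exact ⟨(Finset.mem_filter.1 (hg1 w (Finset.mem_sdiff.2 ⟨hw, hw0⟩)).1).2,
        fun h => absurd h hw0⟩
  have hgi : ∀ w ∈ P, ∀ w' ∈ P, g w = g w' → w = w' := by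
    intro w hw w' hw' he
    by_cases hw0 : w ∈ P0 <;> by_cases hw0' : w' ∈ P0
    · rw [hg0' w hw0, hg0' w' hw0'] at he
      exact hg0i w hw0 w' hw0' he
    · rw [hg0' w hw0, hg1' w' hw0'] at he
      have := (hg1 w' (Finset.mem_sdiff.2 ⟨hw', hw0'⟩)).2
      rw [← he, Finset.mem_union, not_or] at this
      exact absurd (Finset.mem_image_of_mem g0 hw0) this.2
    · rw [hg1' w hw0, hg0' w' hw0'] at he
      have := (hg1 w (Finset.mem_sdiff.2 ⟨hw, hw0⟩)).2
      rw [he, Finset.mem_union, not_or] at this
      exact absurd (Finset.mem_image_of_mem g0 hw0') this.2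
    · rw [hg1' w hw0, hg1' w' hw0'] at he
      exact hg1i w (Finset.mem_sdiff.2 ⟨hw, hw0⟩) w' (Finset.mem_sdiff.2 ⟨hw', hw0'⟩) he
  -- the zeros of the new vertex
  obtain ⟨Z, hZ1, hZ2, hZ3⟩ := Finset.exists_subsuperset_card_eq (s := H) (t := (P.image g)ᶜ)
    (n := 2 * h + 1) (by
      intro c hc
      rw [Finset.mem_compl, Finset.mem_image]
      rintro ⟨w, hw, rfl⟩
      exact hgH w hw hc) (by omega) (by
      rw [Finset.card_compl, Fintype.card_fin]
      have : (P.image g).card ≤ P.card := Finset.card_image_le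
      omega)
  let sv : Fin (2 * k - 1) → ℕ := fun c =>
    if c ∈ Z then 0 else if hc : ∃ w ∈ P, g w = c then s hc.choose c + 1 else 1
  have hsv1 : ∀ c ∈ Z, sv c = 0 := fun c hc => if_pos hc
  have hsv2 : ∀ w ∈ P, sv (g w) = s w (g w) + 1 := by
    intro w hw
    have h1 : g w ∉ Z := fun hz => by
      have := hZ2 hz
      rw [Finset.mem_compl] at this
      exact this (Finset.mem_image_of_mem g hw)
    have h2 : ∃ w' ∈ P, g w' = g w := ⟨w, hw, rfl⟩
    have h3 : sv (g w) = s h2.choose (g w) + 1 := by
      simp only [sv]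
      rw [if_neg h1, dif_pos h2]
    rw [h3, hgi _ h2.choose_spec.1 w hw h2.choose_spec.2]
  have hsv3 : ∀ c, c ∉ Z → (¬ ∃ w ∈ P, g w = c) → sv c = 1 := by
    intro c h1 h2
    simp only [sv]
    rw [if_neg h1, dif_neg h2]
  have hsv0 : ∀ c, c ∉ Z → sv c ≠ 0 := by
    intro c h1 h2
    by_cases h3 : ∃ w ∈ P, g w = c
    · obtain ⟨w, hw, rfl⟩ := h3
      rw [hsv2 w hw] at h2
      omega
    · rw [hsv3 c h1 h3] at h2
      omega
  have hsvle : ∀ c, sv c ≤ 2 := by
    intro c
    by_cases h1 : c ∈ Z
    · rw [hsv1 c h1]; omega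
    · by_cases h3 : ∃ w ∈ P, g w = c
      · obtain ⟨w, hw, rfl⟩ := h3
        rw [hsv2 w hw]
        have := (hgs w hw).1
        omega
      · rw [hsv3 c h1 h3]; omega
  let s' : V → Fin (2 * k - 1) → ℕ := Function.update s v sv
  let a' : V → V → Fin (2 * k - 1) := fun u w =>
    if u = v then g w else if w = v then d u else a u w
  have hs'v : s' v = sv := Function.update_self _ _ _
  have hs' : ∀ u, u ≠ v → s' u = s u := fun u hu => Function.update_of_ne hu _ _
  have ha'1 : ∀ w, a' v w = g w := fun w => if_pos rfl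
  have ha'2 : ∀ u, u ≠ v → a' u v = d u := fun u hu => by
    simp only [a']
    rw [if_neg hu, if_pos trivial]
  have ha'3 : ∀ u w, u ≠ v → w ≠ v → a' u w = a u w := fun u w hu hw => by
    simp only [a']
    rw [if_neg hu, if_neg hw]
  have hneS : ∀ u ∈ S, u ≠ v := fun u hu he => hv (he ▸ hu)
  refine ⟨s', a', ⟨?_, ?_, ?_, ?_, ?_⟩⟩
  · intro u hu c
    rcases Finset.mem_insert.1 hu with rfl | hu
    · rw [hs'v]; exact hsvle c
    · rw [hs' u (hneS u hu)]; exact hG.le2 u hu c
  · intro u hu
    rcases Finset.mem_insert.1 hu with rfl | hu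
    · rw [hs'v, ← hZ3]
      congr 1
      ext c
      rw [Finset.mem_filter]
      constructor
      · rintro ⟨-, h1⟩
        by_contra h2
        exact hsv0 c h2 h1
      · intro h1
        exact ⟨Finset.mem_univ _, hsv1 c h1⟩
    · rw [hs' u (hneS u hu)]; exact hG.zeros u hu
  · intro u hu
    rcases Finset.mem_insert.1 hu with rfl | hu
    · rw [hs'v]
      have h1 : (univ.filter (fun c => sv c = 2)).card ≤ (P \ P0).card := by
        refine (Finset.card_le_card (t := (P \ P0).image g) ?_).trans Finset.card_image_le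
        intro c hc
        have h2 := (Finset.mem_filter.1 hc).2
        have h3 : c ∉ Z := fun hz => by rw [hsv1 c hz] at h2; omega
        by_cases h4 : ∃ w ∈ P, g w = c
        · obtain ⟨w, hw, rfl⟩ := h4
          rw [hsv2 w hw] at h2
          refine Finset.mem_image_of_mem g (Finset.mem_sdiff.2 ⟨hw, fun h5 => ?_⟩)
          have := (hgs w hw).2 h5
          omega
        · rw [hsv3 c h3 h4] at h2
          omega
      have e3 : (P \ P0).card = P.card - P0.card := Finset.card_sdiff_of_subset hP0
      rcases le_total P.card (h + 1) with h5 | h5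
      · rw [min_eq_left h5] at hP0c
        omega
      · rw [min_eq_right h5] at hP0c
        omega
    · rw [hs' u (hneS u hu)]; exact hG.twos u hu
  · intro u hu w hw hwp
    rcases Finset.mem_insert.1 hu with e1 | h1
    · rcases Finset.mem_insert.1 hw with e2 | h2
      · rw [e1, e2] at hwp
        exact absurd hwp (hirr _)
      · rw [e1] at hwp ⊢
        rw [ha'1, hs'v, hs' w (hneS w h2), hsv2 w (Finset.mem_filter.2 ⟨h2, hwp⟩)]
        omega
    · rcases Finset.mem_insert.1 hw with e2 | h2
      · rw [e2] at hwp ⊢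
        have huC : u ∈ C := Finset.mem_filter.2 ⟨h1, hwp⟩
        obtain ⟨h3, h4⟩ := hd u huC
        rw [ha'2 u (hneS u h1), hs'v, hs' u (hneS u h1), hsv1 _ (hZ1 h3)]
        have h5 := (Finset.mem_filter.1 (Finset.mem_sdiff.1 h4).1).2
        exact Nat.pos_of_ne_zero h5
      · rw [ha'3 u w (hneS u h1) (hneS w h2), hs' u (hneS u h1), hs' w (hneS w h2)]
        exact hG.lt u h1 w h2 hwp
  · intro u hu w hw w' hw' hwp hwp' he
    rcases Finset.mem_insert.1 hu with e1 | h1
    · rw [e1] at hwp hwp' he
      have hwS : w ∈ S := (Finset.mem_insert.1 hw).resolve_left fun h => hirr v (h ▸ hwp)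
      have hwS' : w' ∈ S := (Finset.mem_insert.1 hw').resolve_left fun h => hirr v (h ▸ hwp')
      rw [ha'1, ha'1] at he
      exact hgi w (Finset.mem_filter.2 ⟨hwS, hwp⟩) w' (Finset.mem_filter.2 ⟨hwS', hwp'⟩) he
    · have hd' : v ∈ par u → ∀ x ∈ S, x ∈ par u → d u ≠ a u x := by
        intro hvp x hx hxp he'
        have h2 := (hd u (Finset.mem_filter.2 ⟨h1, hvp⟩)).2
        have h3 := (Finset.mem_sdiff.1 h2).2
        rw [he'] at h3
        exact h3 (Finset.mem_image_of_mem _ (Finset.mem_filter.2 ⟨hx, hxp⟩))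
      rcases Finset.mem_insert.1 hw with e2 | h2 <;> rcases Finset.mem_insert.1 hw' with e3 | h3
      · rw [e2, e3]
      · rw [e2] at hwp he
        rw [ha'2 u (hneS u h1), ha'3 u w' (hneS u h1) (hneS w' h3)] at he
        exact absurd he (hd' hwp w' h3 hwp')
      · rw [e3] at hwp' he
        rw [ha'2 u (hneS u h1), ha'3 u w (hneS u h1) (hneS w h2)] at he
        exact absurd he.symm (hd' hwp' w h2 hwp)
      · rw [ha'3 u w (hneS u h1) (hneS w h2), ha'3 u w' (hneS u h1) (hneS w' h3)] at he
        exact hG.inj u h1 w h2 w' h3 hwp hwp' he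

/-- Labels and colours for all vertices. -/
theorem all_good {V : Type} [DecidableEq V] (k h : ℕ) (par : V → Finset V)
    (hk : ∀ v, (par v).card ≤ k) (hirr : ∀ v, v ∉ par v)
    (hA : 2 * h + 2 ≤ k) (hB : 2 * k - 1 ≤ 3 * (k - 1 - 2 * h)) (hC : k * 2 ^ h < 3 ^ h)
    (S : Finset V) : ∃ s a, Good k h par S s a := by
  classical
  have : Nonempty (Fin (2 * k - 1)) := ⟨⟨0, by omega⟩⟩
  induction hn : S.card generalizing S with
  | zero =>
    rw [Finset.card_eq_zero] at hn
    subst hn
    exact ⟨fun _ _ => 0, fun _ _ => Classical.arbitrary _, by simp, by simp, by simp, by simp,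
      by simp⟩
  | succ n ih =>
    have hne : S.Nonempty := by
      rw [← Finset.card_pos]; omega
    -- a vertex with at most `k` children
    have hex : ∃ v ∈ S, (S.filter (fun u => v ∈ par u)).card ≤ k := by
      by_contra hcon
      push Not at hcon
      have h1 : ∑ _v ∈ S, k < ∑ v ∈ S, (S.filter (fun u => v ∈ par u)).card :=
        Finset.sum_lt_sum_of_nonempty hne fun v hv => hcon v hv
      have h2 : ∑ v ∈ S, (S.filter (fun u => v ∈ par u)).card =
          ∑ u ∈ S, (S.filter (fun v => v ∈ par u)).card := by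
        simp only [Finset.card_filter]
        exact Finset.sum_comm
      have h3 : ∑ u ∈ S, (S.filter (fun v => v ∈ par u)).card ≤ ∑ _u ∈ S, k :=
        Finset.sum_le_sum fun u _ =>
          (Finset.card_le_card fun v hv => (Finset.mem_filter.1 hv).2).trans (hk u)
      omega
    obtain ⟨v, hv, hdeg⟩ := hex
    obtain ⟨s, a, hG⟩ := ih (S.erase v) (by rw [Finset.card_erase_of_mem hv]; omega)
    have hdeg' : ((S.erase v).filter (fun u => v ∈ par u)).card ≤ k :=
      (Finset.card_le_card (Finset.filter_subset_filter _ (Finset.erase_subset _ _))).trans hdeg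
    have := step k h par hk hirr hA hB hC (S.erase v) v (Finset.notMem_erase v S) hdeg' s a hG
    rwa [Finset.insert_erase hv] at this

end Pool.Agent.Q104.BD
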