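import Pool.Agent.Q104.BD.Forest
import Pool.Agent.Q104.BD.Greedy

/-! Unions of `k` forests are unions of `2 k - 1` forests of diameter at most four, `k ≥ 256`. -/

set_option autoImplicit false

namespace Pool.Agent.Q104.BD

open Finset

variable {V : Type}

/-- An orientation with out-degrees at most `k` of a union of `k` forests. -/
theorem exists_par [Fintype V] [DecidableEq V] (G : SimpleGraph V) (k : ℕ)
    (F : Fin k → SimpleGraph V) (hF : ∀ i, (F i).IsAcyclic) (hle : ∀ i, F i ≤ G)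
    (hcov : ∀ u v, G.Adj u v → ∃ i, (F i).Adj u v) :
    ∃ par : V → Finset V, (∀ v, (par v).card ≤ k) ∧ (∀ v w, w ∈ par v → G.Adj v w) ∧
      ∀ v w, G.Adj v w → (w ∈ par v ∧ v ∉ par w) ∨ (v ∈ par w ∧ w ∉ par v) := by
  classical
  choose r h1 h2 h3 using fun i => orient (F i) (hF i)
  let e : V ≃ Fin (Fintype.card V) := Fintype.equivFin V
  let R : V → V → Prop := fun v w => ∃ i, r i v w
  have hR : ∀ v w, R v w → G.Adj v w := fun v w ⟨i, hi⟩ => hle i (h1 i v w hi)
  let par : V → Finset V := fun v => univ.filter (fun w => R v w ∧ (R w v → e v < e w))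
  refine ⟨par, ?_, ?_, ?_⟩
  · intro v
    have hsub : par v ⊆ univ.biUnion (fun i : Fin k => univ.filter (fun w => r i v w)) := by
      intro w hw
      obtain ⟨i, hi⟩ := (Finset.mem_filter.1 hw).2.1
      exact Finset.mem_biUnion.2 ⟨i, Finset.mem_univ _, Finset.mem_filter.2 ⟨Finset.mem_univ _, hi⟩⟩
    refine (Finset.card_le_card hsub).trans (Finset.card_biUnion_le.trans ?_)
    calc ∑ i : Fin k, (univ.filter (fun w => r i v w)).card ≤ ∑ _i : Fin k, 1 := by
          refine Finset.sum_le_sum fun i _ => Finset.card_le_one.2 fun a ha b hb => ?_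
          exact h2 i v a b (Finset.mem_filter.1 ha).2 (Finset.mem_filter.1 hb).2
      _ = k := by simp
  · intro v w hw
    exact hR v w (Finset.mem_filter.1 hw).2.1
  · intro v w h
    obtain ⟨i, hi⟩ := hcov v w h
    have hne : v ≠ w := h.ne
    have hor : R v w ∨ R w v := (h3 i v w hi).imp (fun x => ⟨i, x⟩) (fun x => ⟨i, x⟩)
    have hlt : e v < e w ∨ e w < e v := lt_or_gt_of_ne fun he => hne (e.injective he)
    simp only [par, Finset.mem_filter, Finset.mem_univ, true_and]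
    have hasym : e v < e w → ¬ e w < e v := fun h1 h2 => lt_asymm h1 h2
    tauto

/-- The main construction. -/
theorem main [Fintype V] (G : SimpleGraph V) (k h : ℕ) (F : Fin k → SimpleGraph V)
    (hF : ∀ i, (F i).IsAcyclic) (hle : ∀ i, F i ≤ G)
    (hcov : ∀ u v, G.Adj u v → ∃ i, (F i).Adj u v)
    (hA : 2 * h + 2 ≤ k) (hB : 2 * k - 1 ≤ 3 * (k - 1 - 2 * h)) (hC : k * 2 ^ h < 3 ^ h) :
    ∃ T : Fin (2 * k - 1) → SimpleGraph V, (∀ c, T c ≤ G) ∧
      (∀ u v, G.Adj u v → ∃! c, (T c).Adj u v) ∧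
      ∀ c, (T c).IsAcyclic ∧ ∀ u v, (T c).Reachable u v → (T c).dist u v ≤ 4 := by
  classical
  obtain ⟨par, hp1, hp2, hp3⟩ := exists_par G k F hF hle hcov
  have hirr : ∀ v, v ∉ par v := fun v hv => G.irrefl (hp2 v v hv)
  obtain ⟨s, a, hG⟩ := all_good k h par hp1 hirr hA hB hC Finset.univ
  let T : Fin (2 * k - 1) → SimpleGraph V := fun c =>
    { Adj := fun u w => (w ∈ par u ∧ a u w = c) ∨ (u ∈ par w ∧ a w u = c)
      symm := ⟨fun u w h => h.symm⟩
      loopless := ⟨fun u h => by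
        rcases h with h | h <;> exact hirr u h.1⟩ }
  have hT : ∀ c u w, (T c).Adj u w ↔ (w ∈ par u ∧ a u w = c) ∨ (u ∈ par w ∧ a w u = c) :=
    fun c u w => Iff.rfl
  have hlt : ∀ v w, w ∈ par v → s w (a v w) < s v (a v w) := fun v w h =>
    hG.lt v (Finset.mem_univ _) w (Finset.mem_univ _) h
  have hne : ∀ c u w, (T c).Adj u w → s u c ≠ s w c := by
    rintro c u w (⟨h1, rfl⟩ | ⟨h1, rfl⟩)
    · exact (hlt u w h1).ne'
    · exact (hlt w u h1).ne
  have huni : ∀ c v u w, (T c).Adj v u → (T c).Adj v w → s u c < s v c → s w c < s v c →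
      u = w := by
    intro c v u w h1 h2 h3 h4
    have key : ∀ x, (T c).Adj v x → s x c < s v c → x ∈ par v ∧ a v x = c := by
      intro x hx hsx
      rcases hx with hx | ⟨hx1, hx2⟩
      · exact hx
      · exfalso
        have := hlt x v hx1
        rw [hx2] at this
        omega
    obtain ⟨u1, u2⟩ := key u h1 h3
    obtain ⟨w1, w2⟩ := key w h2 h4
    exact hG.inj v (Finset.mem_univ _) u (Finset.mem_univ _) w (Finset.mem_univ _) u1 w1
      (u2.trans w2.symm)
  refine ⟨T, ?_, ?_, ?_⟩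
  · intro c u w h
    rcases h with h | h
    · exact hp2 u w h.1
    · exact (hp2 w u h.1).symm
  · intro u w h
    rcases hp3 u w h with ⟨h1, h2⟩ | ⟨h1, h2⟩
    · refine ⟨a u w, Or.inl ⟨h1, rfl⟩, ?_⟩
      rintro c (⟨-, h3⟩ | ⟨h3, -⟩)
      · exact h3.symm
      · exact absurd h3 h2
    · refine ⟨a w u, Or.inr ⟨h1, rfl⟩, ?_⟩
      rintro c (⟨h3, -⟩ | ⟨-, h3⟩)
      · exact absurd h3 h2
      · exact h3.symm
  · intro c
    exact ⟨acyclic_of_depth (T c) (fun v => s v c) (hne c) (huni c),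
      dist_of_depth (T c) (fun v => s v c) (fun v => hG.le2 v (Finset.mem_univ _) c) (hne c)
        (huni c)⟩

/-- Admissible parameters for every `k ≥ 256`. -/
theorem params (k : ℕ) (hk : 256 ≤ k) : ∃ h : ℕ, 2 * h + 2 ≤ k ∧
    2 * k - 1 ≤ 3 * (k - 1 - 2 * h) ∧ k * 2 ^ h < 3 ^ h := by
  obtain ⟨s, hs1, hs2⟩ : ∃ s, 2 ^ s ≤ k ∧ k < 2 ^ (s + 1) :=
    ⟨Nat.log 2 k, Nat.pow_log_le_self 2 (by omega), Nat.lt_pow_succ_log_self (by norm_num) k⟩
  have hs8 : 8 ≤ s := by
    by_contra hcon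
    have h1 : 2 ^ (s + 1) ≤ 2 ^ 8 := Nat.pow_le_pow_right (by norm_num) (by omega)
    norm_num at h1
    omega
  have hpow : ∀ n, 12 * (n + 8) + 26 ≤ 2 ^ (n + 8) := by
    intro n
    induction n with
    | zero => norm_num
    | succ n ih =>
      have : 2 ^ (n + 1 + 8) = 2 * 2 ^ (n + 8) := by ring
      omega
  have h1 : 12 * s + 26 ≤ 2 ^ s := by
    have := hpow (s - 8)
    rwa [Nat.sub_add_cancel hs8] at this
  refine ⟨2 * (s + 2), by omega, by omega, ?_⟩
  calc k * 2 ^ (2 * (s + 2)) < 2 ^ (s + 1) * 2 ^ (2 * (s + 2)) :=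
        Nat.mul_lt_mul_of_pos_right hs2 (by positivity)
    _ ≤ 2 ^ (s + 2) * 2 ^ (2 * (s + 2)) :=
        Nat.mul_le_mul_right _ (Nat.pow_le_pow_right (by norm_num) (by omega))
    _ = 8 ^ (s + 2) := by
        rw [show (8 : ℕ) = 2 * 2 ^ 2 by norm_num, mul_pow, ← pow_mul]
    _ ≤ 9 ^ (s + 2) := Nat.pow_le_pow_left (by norm_num) _
    _ = 3 ^ (2 * (s + 2)) := by rw [pow_mul]; norm_num

end Pool.Agent.Q104.BD
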